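import Pool.Agent.Lib.MP_7d2bee_an.Hol

/-!
# The rate of the pure greedy algorithm for ridge functions on starting elements that are smooth
under rotations

The definitions are in `Pool/Agent/Lib/MP_7d2bee_an/Defs.lean`,
`Pool/Agent/Lib/MP_7d2bee_an/Classes.lean`, `Pool/Agent/Lib/MP_7d2bee_an/AngDefs.lean` and
`Pool/Agent/Lib/MP_7d2bee_an/HolDefs.lean`.
-/

set_option autoImplicit false

namespace Pool.Agent.Results.MP_7d2bee_an.AngularSmoothness

open MeasureTheory Pool.Agent.Lib.MP_7d2bee_an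

/-- For every `β > 0` there is `C` with
`1 / √(8 m + 1) ≤ γ(m; A) ≤ C M m ^ (- β / (1 + 2 β))` for all `M ≥ 1`, `m ≥ 1`, where `A` is the
set of all `f` in `A_1(R_2)` whose distance to the functions of angular degree at most `n` is at
most `M (n + 1) ^ (-β)` for every `n`. -/
theorem result (β : ℝ) (hβ : 0 < β) :
    ∃ C : ℝ, ∀ M : ℝ, 1 ≤ M → ∀ m : ℕ, 1 ≤ m →
      1 / √(8 * m + 1) ≤ greedyRateOn (classA1 ∩ angClass β M) m ∧
      greedyRateOn (classA1 ∩ angClass β M) m ≤ C * M * (m : ℝ) ^ (-(β / (1 + 2 * β))) :=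
  hol_rate hβ

end Pool.Agent.Results.MP_7d2bee_an.AngularSmoothness
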