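import Pool.Agent.Lib.MP_7d2bee_an.AngRate

/-!
# The rate of the pure greedy algorithm for ridge functions on starting elements of bounded
angular degree

The definitions are in `Pool/Agent/Lib/MP_7d2bee_an/Defs.lean`,
`Pool/Agent/Lib/MP_7d2bee_an/Classes.lean` and `Pool/Agent/Lib/MP_7d2bee_an/AngDefs.lean`.
-/

set_option autoImplicit false

namespace Pool.Agent.Results.MP_7d2bee_an.BoundedAngularDegree

open MeasureTheory Pool.Agent.Lib.MP_7d2bee_an

/-- For all `n, m ≥ 0`: over all starting elements in `A_1(R_2)` of angular degree at most `n`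
and all realizations of the pure greedy algorithm, the supremum of `‖f_m‖` lies between
`1 / √(8 m + 1)` and `√(2 n + 1) / √(m + 1)`. -/
theorem result (n m : ℕ) :
    1 / √(8 * m + 1) ≤ greedyRateOn {f | f ∈ classA1 ∧ AngularDegreeLE n f} m ∧
    greedyRateOn {f | f ∈ classA1 ∧ AngularDegreeLE n f} m ≤ √(2 * n + 1) / √((m : ℝ) + 1) :=
  angular_rate n m

end Pool.Agent.Results.MP_7d2bee_an.BoundedAngularDegree
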