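import Pool.Agent.Lib.MP_7d2bee_an.Exist

/-!
# A lower bound for the pure greedy algorithm with ridge functions on the disk

`Plane`, `diskMeasure`, `L2D`, `IsRidge`, `ridgeDictionary`, `classA1`, `IsRealization` and
`greedyRate` are defined in `Pool/Agent/Lib/MP_7d2bee_an/Defs.lean`.
-/

set_option autoImplicit false

namespace Pool.Agent.Results.MP_7d2bee_an.LowerBound

open MeasureTheory Pool.Agent.Lib.MP_7d2bee_an

/-- For every `m ≥ 1` the worst residual norm `γ(m, R_2)` of the pure greedy algorithm is at least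
`1 / (2 √m)`; moreover, for every `δ` in `(0, 1)` some element of `A_1(R_2)` is at distance at
least `(1 - δ) / (2 √m)` from every sum of `m` ridge functions. -/
theorem result (m : ℕ) (hm : 1 ≤ m) :
    1 / (2 * √(m : ℝ)) ≤ greedyRate m ∧
    ∀ δ : ℝ, 0 < δ → δ < 1 → ∃ f ∈ classA1, ∀ u : Fin m → L2D, (∀ i, IsRidge (u i)) →
      (1 - δ) / (2 * √(m : ℝ)) ≤ ‖f - ∑ i, u i‖ :=
  ⟨greedyRate_ge hm, fun _ h0 h1 => main_bound hm h0 h1⟩

end Pool.Agent.Results.MP_7d2bee_an.LowerBound
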