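import Pool.Agent.Lib.MP_7d2bee_an.TwoSided

/-!
# The rate of the pure greedy algorithm for ridge functions on smooth starting elements

The definitions are in `Pool/Agent/Lib/MP_7d2bee_an/Defs.lean` and
`Pool/Agent/Lib/MP_7d2bee_an/Classes.lean`.
-/

set_option autoImplicit false

namespace Pool.Agent.Results.MP_7d2bee_an.SmoothStarts

open MeasureTheory Pool.Agent.Lib.MP_7d2bee_an

/-- For every `s > 0` there are `c, C > 0` with
`c m ^ (- max (s, 1/2)) ≤ γ(m; A) ≤ C M m ^ (-s)` for all `M ≥ 1`, `m ≥ 1`, where `A` is the set of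
all `f` in `A_1(R_2)` whose distance to the polynomials of degree `K` is at most
`M (K + 1) ^ (-s)` for every `K`. -/
theorem result (s : ℝ) (hs : 0 < s) :
    ∃ c C : ℝ, 0 < c ∧ ∀ M : ℝ, 1 ≤ M → ∀ m : ℕ, 1 ≤ m →
      c * (m : ℝ) ^ (-(max s (1 / 2))) ≤ greedyRateOn (classA1 ∩ approxClass s M) m ∧
      greedyRateOn (classA1 ∩ approxClass s M) m ≤ C * M * (m : ℝ) ^ (-s) :=
  two_sided hs

end Pool.Agent.Results.MP_7d2bee_an.SmoothStarts
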